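import Pool.Agent.Helper46.R.Classes

set_option autoImplicit false

namespace Pool.Agent.Results.MP_45bba5_co.LogDensity

open Finset

/-- The matroids with ground set `Fin n`. -/
abbrev MatroidOn (n : ℕ) : Type := {M : Matroid (Fin n) // M.E = Set.univ}

/-- Isomorphism: some permutation of the ground set carries bases to bases. -/
def Iso (n : ℕ) (M N : MatroidOn n) : Prop :=
  ∃ σ : Equiv.Perm (Fin n), ∀ B : Set (Fin n), M.1.IsBase B ↔ N.1.IsBase (σ '' B)

/-- The set of isomorphism classes of matroids on `n` elements. -/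
abbrev Classes (n : ℕ) : Type := Quot (Iso n)

/-- The rank `r` of `M` (the size of its bases) satisfies `|2 r - n| ≤ 2 K + 1`. For `K = 0` this
says `(n - 1) / 2 ≤ r ≤ (n + 1) / 2`. -/
def CentralRank (K : ℕ) {n : ℕ} (M : Matroid (Fin n)) : Prop :=
  ∀ B : Set (Fin n), M.IsBase B → n ≤ 2 * B.ncard + (2 * K + 1) ∧ 2 * B.ncard ≤ n + (2 * K + 1)

/-- The proportion of the isomorphism classes of matroids on `n` elements whose rank `r`
satisfies `|2 r - n| ≤ 2 K + 1`. -/
noncomputable def centralProportion (K n : ℕ) : ℝ :=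
  (Nat.card {q : Classes n // ∀ M : MatroidOn n, q = Quot.mk _ M → CentralRank K M.1} : ℝ) /
    (Nat.card (Classes n) : ℝ)

/-- For every `K` and every `ε > 0`, for all large `N`, the sum of `1 / n` over the `n ≤ N` for
which at least a proportion `1 - 2 ^ (-n)` of all matroids on `n` elements have rank within
`K + 1 / 2` of `n / 2` is at least `(1 - (2 K + 1) / (2 (K + 1) ^ 2) - ε) log N`. -/
theorem result : ∀ (K : ℕ) (ε : ℝ), 0 < ε → ∃ N0 : ℕ, ∀ N : ℕ, N0 ≤ N →
    (1 - (2 * (K : ℝ) + 1) / (2 * ((K : ℝ) + 1) ^ 2) - ε) * Real.log N ≤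
      ∑ n ∈ (Icc 1 N).filter (fun n : ℕ => 1 - 1 / 2 ^ n ≤ centralProportion K n),
        (1 : ℝ) / n := by
  intro K ε hε
  exact Helper46.R.main K ε hε

end Pool.Agent.Results.MP_45bba5_co.LogDensity
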