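import Pool.Agent.Helper46.R.Nat

set_option autoImplicit false

namespace Pool.Agent.Results.MP_45bba5_co.NaturalWindow

open Finset

/-- The matroids with ground set `Fin n`. -/
abbrev MatroidOn (n : ℕ) : Type := {M : Matroid (Fin n) // M.E = Set.univ}

/-- Isomorphism: some permutation of the ground set carries bases to bases. -/
def Iso (n : ℕ) (M N : MatroidOn n) : Prop :=
  ∃ σ : Equiv.Perm (Fin n), ∀ B : Set (Fin n), M.1.IsBase B ↔ N.1.IsBase (σ '' B)

/-- The set of isomorphism classes of matroids on `n` elements. -/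
abbrev Classes (n : ℕ) : Type := Quot (Iso n)

/-- The rank `r` of `M` (the size of its bases) satisfies `|2 r - n| ≤ 2 K + 1`. -/
def CentralRank (K : ℕ) {n : ℕ} (M : Matroid (Fin n)) : Prop :=
  ∀ B : Set (Fin n), M.IsBase B → n ≤ 2 * B.ncard + (2 * K + 1) ∧ 2 * B.ncard ≤ n + (2 * K + 1)

/-- The proportion of the isomorphism classes of matroids on `n` elements whose rank `r`
satisfies `|2 r - n| ≤ 2 K + 1`. -/
noncomputable def centralProportion (K n : ℕ) : ℝ :=
  (Nat.card {q : Classes n // ∀ M : MatroidOn n, q = Quot.mk _ M → CentralRank K M.1} : ℝ) /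
    (Nat.card (Classes n) : ℝ)

open Classical in
/-- There is a constant `C` such that for all `N ≥ 2` and `1 ≤ K ≤ √N`, for all but at most `C N / K`
of the `n` with `N / 2 < n ≤ N`, at least a proportion `1 - 2 ^ (-n)` of all matroids on `n`
elements have rank within `K + 1 / 2` of `n / 2`. -/
theorem result : ∃ C : ℝ, 0 < C ∧ ∀ N : ℕ, 2 ≤ N → ∀ K : ℕ, 1 ≤ K → K ^ 2 ≤ N →
    (((Ioc (N / 2) N).filter (fun n : ℕ => ¬ 1 - 1 / 2 ^ n ≤ centralProportion K n)).card : ℝ) ≤
      C * N / K :=
  Helper46.R.prop_window_nat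

end Pool.Agent.Results.MP_45bba5_co.NaturalWindow
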